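import Pool.Agent.Run7.h71.CE.Stm

/-! # Project CE: assembly -/

set_option autoImplicit false

namespace Pool.Agent.Run7.h71.CE

open Pool.Agent.Run7.h71.CD

theorem assembly (ring : S_RING) (tk : S_TK) (lft : S_LFT) (zet : S_ZET) (evn : S_EVN)
    (jets : S_JETS0) (fr0 : S_FR0) (fr1 : S_FR1) (str : S_STR) (th1 : S_THETA1) (nil : S_NIL)
    (quo : S_QUO) (bf : S_BF) (crv : S_CRV) (tan : S_TAN) (rll : S_RLL) (idl : S_IDL)
    (lvl : S_LVL1) (prj : S_PRJ) (out : S_OUTA) (fin : S_FINA) : GoalA :=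
  fin lft zet (prj lft evn) lvl
    (out lft ring (jets lft tk) fr0 fr1 str (nil th1) quo bf crv tan rll idl)

end Pool.Agent.Run7.h71.CE
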