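import Pool.Agent.Run7.h71.CE.Stm
import Pool.Agent.Run7.h596.CD_FR

/-! # Project CE, pieces FR0 and FR1 (adapted from `CD_FR` by helper596) -/

set_option autoImplicit false
set_option linter.unusedSimpArgs false

namespace Pool.Agent.Run7.h71.CE

open Pool.Agent.Run7.h71.CD

theorem FR0 : S_FR0 := by
  intro A _ _ d X ζ ν M h
  obtain ⟨Z, hZ⟩ : ∃ Z, Z = DV596 d ζ := ⟨_, rfl⟩
  obtain ⟨N, hN⟩ : ∃ N, N = DV596 d ν := ⟨_, rfl⟩
  obtain ⟨E, hE⟩ : ∃ E, E = DV596 d X := ⟨_, rfl⟩
  have Zs : ∀ f, Z f = ∑ j, ζ j * d j f := fun f => by rw [hZ, DV596_apply]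
  have Ns : ∀ f, N f = ∑ j, ν j * d j f := fun f => by rw [hN, DV596_apply]
  have Es : ∀ f, E f = ∑ j, X j * d j f := fun f => by rw [hE, DV596_apply]
  have VX : ∀ (V : Fin 3 → A) i, ∑ j, V j * d j (X i) = V i := by
    intro V i
    simp [h.dX]
  have ZX : ∀ i, Z (X i) = ζ i := fun i => by rw [Zs, VX]
  have NX : ∀ i, N (X i) = ν i := fun i => by rw [Ns, VX]
  have EX : ∀ i, E (X i) = X i := fun i => by rw [Es, VX]
  have Eζ : ∀ i, E (ζ i) = ζ i := fun i => by rw [Es, h.Eζ]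
  have Zζ : ∀ i, Z (ζ i) = -2 * ν i := fun i => by rw [Zs, h.Zζ]
  have EZ : ∀ f, E (Z f) = Z (E f) := by
    intro f
    have k := DV596_bracket d h.comm X ζ f
    rw [← hZ, ← hE] at k
    have k0 : ∀ j, E (ζ j) - Z (X j) = 0 := fun j => by rw [Eζ, ZX, sub_self]
    simp only [k0, zero_mul, Finset.sum_const_zero] at k
    exact sub_eq_zero.mp k
  have Eν : ∀ i, E (ν i) = ν i := by
    intro i
    have k := EZ (ζ i)
    rw [Eζ, Zζ] at k
    simp only [map_neg, neg_mul, Derivation.leibniz, smul_eq_mul, dnum596] at k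
    apply ncancel 2 two_ne_zero
    push_cast
    linear_combination -k
  have EN : ∀ f, E (N f) = N (E f) := by
    intro f
    have k := DV596_bracket d h.comm X ν f
    rw [← hN, ← hE] at k
    have k0 : ∀ j, E (ν j) - N (X j) = 0 := fun j => by rw [Eν, NX, sub_self]
    simp only [k0, zero_mul, Finset.sum_const_zero] at k
    exact sub_eq_zero.mp k
  obtain ⟨a', b', c, hZν⟩ := frame_exists596 h.det (fun i => Z (ν i))
  obtain ⟨p, q, r, hNζ⟩ := frame_exists596 h.det (fun i => N (ζ i))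
  obtain ⟨l, m, n, hNν⟩ := frame_exists596 h.det (fun i => N (ν i))
  -- E kills the coefficients
  have Ekill : ∀ (V : Fin 3 → A) (x y z : A), (∀ i, E (V i) = V i) →
      (∀ i, V i = x * X i + y * ζ i + z * ν i) → E x = 0 ∧ E y = 0 ∧ E z = 0 := by
    intro V x y z hV hx
    apply frame_unique596 h.det
    intro i
    have k := hV i
    rw [hx i] at k
    simp only [map_add, Derivation.leibniz, smul_eq_mul, EX, Eζ, Eν] at k
    linear_combination k
  obtain ⟨Ea', Eb', Ec⟩ := Ekill (fun i => Z (ν i)) a' b' c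
    (fun i => by rw [EZ, Eν]) hZν
  obtain ⟨Ep, Eq, Er⟩ := Ekill (fun i => N (ζ i)) p q r
    (fun i => by rw [EN, Eζ]) hNζ
  obtain ⟨El, Em, En⟩ := Ekill (fun i => N (ν i)) l m n
    (fun i => by rw [EN, Eν]) hNν
  have ZN : ∀ f, Z (N f) - N (Z f) = (a' - p) * E f + (b' - q) * Z f + (c - r) * N f := by
    intro f
    have k := DV596_bracket d h.comm ζ ν f
    rw [← hN, ← hZ] at k
    rw [k, Es, Zs, Ns]
    simp only [Fin.sum_univ_three, hZν, hNζ]
    ring
  -- the jets
  have dotlin : ∀ k, dot (M k) (fun i => N (ζ i)) =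
      p * dot (M k) X + q * dot (M k) ζ + r * dot (M k) ν := by
    intro k
    simp only [dot, Fin.sum_univ_three, hNζ]
    ring
  have zV : ∀ k < 6, ∀ V : Fin 3 → A, DV596 d V (dot (M k) ζ) =
      dot (M (k + 1)) V + (k + 1 : ℕ) * dot (M k) (fun i => DV596 d V (ζ i)) := by
    intro k hk V
    rw [DV596_apply]
    simp only [h.dM k hk]
    simp only [dot, Fin.sum_univ_three, DV596_apply3]
    ring
  have zZ : ∀ k < 6, Z (dot (M k) ζ) = dot (M (k + 1)) ζ - 2 * (k + 1 : ℕ) * dot (M k) ν := by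
    intro k hk
    have e := zV k hk ζ
    rw [← hZ] at e
    rw [e]
    simp only [dot, Fin.sum_univ_three, Zζ]
    ring
  have zN : ∀ k < 6, N (dot (M k) ζ) = dot (M (k + 1)) ν +
      (k + 1 : ℕ) * (p * dot (M k) X + q * dot (M k) ζ + r * dot (M k) ν) := by
    intro k hk
    have e := zV k hk ν
    rw [← hN] at e
    rw [e, dotlin]
  have x0 := h.X0
  have z0 := h.f1
  have z1 := h.f2
  have z2 := h.f3
  have Z0 := zZ 0 (by norm_num)
  have Z1 := zZ 1 (by norm_num)
  have N0 := zN 0 (by norm_num)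
  simp only [Nat.reduceAdd, zero_add, Nat.cast_ofNat, Nat.cast_one] at Z0 Z1 N0
  rw [z0, map_zero, z1] at Z0
  have n0 : dot (M 0) ν = 1 := by
    apply ncancel 2 two_ne_zero
    push_cast
    linear_combination Z0
  rw [z0, map_zero, x0, n0] at N0
  rw [z1, dnum596, z2] at Z1
  have n1 : dot (M 1) ν = 0 := by
    apply ncancel 4 four_ne_zero
    push_cast
    linear_combination Z1
  have r0 : r = 0 := by linear_combination -N0 - n1
  subst r0
  have c0 : c = 0 := by
    have k : Z (dot (M 0) ν) = dot (M 1) ν + dot (M 0) (fun i => Z (ν i)) := by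
      have hM : ∀ j, Z (M 0 j) = M 1 j := fun j => by rw [Zs, h.M1]
      simp only [dot, Fin.sum_univ_three, map_add, Derivation.leibniz, smul_eq_mul, hM]
      ring
    have k2 : dot (M 0) (fun i => Z (ν i)) = a' * dot (M 0) X + b' * dot (M 0) ζ
        + c * dot (M 0) ν := by
      simp only [dot, Fin.sum_univ_three, hZν]
      ring
    rw [k2, x0, z0, n0, n1] at k
    have k3 : Z (1 : A) = 0 := Z.map_one_eq_zero
    rw [k3] at k
    linear_combination -k
  subst c0
  refine ⟨Z, N, E, -a', -b', p, q, l, m, n, ⟨h.det, EX, ZX, NX, Eζ, Zζ, ?_, Eν, ?_, hNν, ?_, ?_, Ep,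
    Eq, El, Em, En, EZ, EN, ?_⟩, ⟨h.X0, h.XM, zZ, ?_, h.f1, h.f2, h.f3⟩, n0, Es, Zs, Ns⟩
  · intro i; rw [hNζ]; ring
  · intro i; rw [hZν]; ring
  · rw [map_neg, Ea', neg_zero]
  · rw [map_neg, Eb', neg_zero]
  · intro f; rw [ZN]; ring
  · intro k hk
    rw [zN k hk, dotlin]

theorem FR1 : S_FR1 := by
  intro A _ _ Z N E X ζ ν M a b p q l m n Fr h z4 z6
  have dotlin : ∀ k, dot (M k) (fun i => N (ζ i)) =
      p * dot (M k) X + q * dot (M k) ζ := by
    intro k
    simp only [dot, Fin.sum_univ_three, Fr.Nζ]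
    ring
  have zN : ∀ k < 6, N (dot (M k) ζ) = dot (M (k + 1)) ν +
      (k + 1 : ℕ) * (p * dot (M k) X + q * dot (M k) ζ) := by
    intro k hk
    rw [h.Nf k hk, dotlin]
  have zZ := h.Zf
  have x0 := h.X0
  have x1 := h.XM 0 (by norm_num)
  have x2 := h.XM 1 (by norm_num)
  have x3 := h.XM 2 (by norm_num)
  have x4 := h.XM 3 (by norm_num)
  have z0 := h.f1
  have z1 := h.f2
  have z2 := h.f3
  have Z0 := zZ 0 (by norm_num)
  have Z1 := zZ 1 (by norm_num)
  have Z2 := zZ 2 (by norm_num)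
  have Z3 := zZ 3 (by norm_num)
  have Z4 := zZ 4 (by norm_num)
  have Z5 := zZ 5 (by norm_num)
  have N0 := zN 0 (by norm_num)
  have N1 := zN 1 (by norm_num)
  have N2 := zN 2 (by norm_num)
  have N3 := zN 3 (by norm_num)
  have N4 := zN 4 (by norm_num)
  simp only [Nat.reduceAdd, zero_add, Nat.cast_ofNat, Nat.cast_one] at x1 x2 x3 x4 Z0 Z1 Z2 Z3 Z4 Z5 N0 N1 N2 N3 N4
  rw [z0, map_zero, z1] at Z0
  have n0 : dot (M 0) ν = 1 := by
    apply ncancel 2 two_ne_zero
    push_cast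
    linear_combination Z0
  rw [z1, dnum596, z2] at Z1
  have n1 : dot (M 1) ν = 0 := by
    apply ncancel 4 four_ne_zero
    push_cast
    linear_combination Z1
  rw [z0] at x1
  rw [z1] at x2
  rw [z2] at x3
  rw [z1, dnum596] at N1
  rw [z2, map_zero] at Z2
  rw [z2, map_zero] at N2
  have n2 : dot (M 2) ν = -4 * q := by linear_combination -N1 - 2 * p * x1
  have n3 : dot (M 3) ν = 12 * p := by linear_combination -N2 - 3 * p * x2
  have z3 : dot (M 3) ζ = -24 * q := by linear_combination -Z2 + 6 * n2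
  rw [z3] at Z3 N3 x4
  simp only [map_neg, neg_mul, Derivation.leibniz, smul_eq_mul, dnum596] at Z3 N3
  have hZq : Z q = 4 * p := by
    apply ncancel 24 (by norm_num)
    push_cast
    linear_combination -Z3 - z4 + 8 * n3
  have n4 : dot (M 4) ν = 96 * q ^ 2 - 24 * N q := by
    linear_combination -N3 - 4 * p * x3
  rw [z4, map_zero] at Z4 N4
  have z5 : dot (M 5) ζ = 960 * q ^ 2 - 240 * N q := by linear_combination -Z4 + 10 * n4
  have n5 : dot (M 5) ν = -480 * p * q := by linear_combination -N4 - 5 * p * x4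
  rw [z5, z6] at Z5
  simp only [map_sub, Derivation.leibniz, Derivation.leibniz_pow, smul_eq_mul, dnum596] at Z5
  have hZNq : Z (N q) = 8 * p * q := by
    apply ncancel 240 (by norm_num)
    push_cast
    linear_combination -Z5 + 12 * n5 + 1920 * q * hZq
  exact ⟨hZq, hZNq⟩

end Pool.Agent.Run7.h71.CE
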