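import Pool.Agent.Run7.h71.CE.Asm
import Pool.Agent.Run7.h71.CD.Main
import Pool.Agent.Run7.h71.CE.NIL
import Pool.Agent.Run7.h71.CE.BF
import Pool.Agent.Run7.h71.CE.FR
import Pool.Agent.Run7.h227.CE_QUO
import Pool.Agent.Run7.h446.CE_OUTA
import Pool.Agent.Run7.h269.CE.LVL1
import Pool.Agent.Run7.h269.CE.PRJ
import Pool.Agent.Run7.h269.CE.FINA
import Pool.Agent.Run7.h160.CE_TAN
import Pool.Agent.Run7.h299.CE_JETS0
import Pool.Agent.Run7.h859.CE_CRV
import Pool.Agent.Run7.h859.CE_IDL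

/-! # Project CE: all pieces put together -/

set_option autoImplicit false

namespace Pool.Agent.Run7.h71.CE

open Pool.Agent.Run7.h71.CD

theorem goalA : GoalA :=
  assembly _root_.Run7.h415.CD.RING _root_.Run7.h415.CD.TK _root_.Run7.h415.CD.LFT
    Pool.Agent.Run7.h913.CD.t_ZET EVN JETS0 FR0 FR1 STR THETA1 NIL
    QUO BF CRV TAN RLL IDL _root_.Run7.h269.CE.t_LVL1 _root_.Run7.h269.CE.t_PRJ OUTA
    _root_.Run7.h269.CE.t_FINA

end Pool.Agent.Run7.h71.CE
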