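import Pool.Agent.Run7.h71.CD.Stm

/-!
# Project CE: one leaf which is a limit of projective leaves is a conic

`GoalA`: if the leaves `{F = c}` for infinitely many `c ≠ c₀` accumulating at `c₀` have projective
tangent involutions, then every connected piece of the leaf `{F = c₀}` lies on a nondegenerate conic.
(Project CD treats the case that ALL leaves have projective tangent involutions.)  Same algebra, in
the quotient of the ring `Sm (cone U)` by the ideal generated by the functions vanishing on the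
good leaves and their transversal derivatives.  Pieces: closed `Prop`s `S_XXX`; a piece is solved by a
theorem `XXX : S_XXX` in the namespace `Pool.Agent.Run7.h71.CE`.
-/

set_option autoImplicit false

namespace Pool.Agent.Run7.h71.CE

open Set Filter Topology
open scoped ContDiff
open Pool.Agent.Run7.h71.CD

/-- as `CD.Fld`, without the orders five and seven -/
structure Fld0 (U : Set (ℝ × ℝ)) (F : ℝ × ℝ → ℝ) (ζ : E3 → E3) : Prop where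
  smooth : ContDiffOn ℝ ∞ ζ (cone U)
  homog : ∀ X ∈ cone U, ∀ r : ℝ, 0 < r → ζ (r • X) = r • ζ X
  two : ∀ X ∈ cone U, iteratedDeriv 2 (fun s : ℝ => lft F (X + s • ζ X)) 0 = 2
  one : ∀ X ∈ cone U, iteratedDeriv 1 (fun s : ℝ => lft F (X + s • ζ X)) 0 = 0
  three : ∀ X ∈ cone U, iteratedDeriv 3 (fun s : ℝ => lft F (X + s • ζ X)) 0 = 0

section alg

variable {A : Type} [CommRing A] [Algebra ℝ A]

/-- as `CD.Jets`, without `f5, f7` -/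
structure Jets0 (d : Fin 3 → Derivation ℝ A A) (X ζ ν : Fin 3 → A) (M : ℕ → Fin 3 → A) : Prop where
  comm : ∀ i j f, d i (d j f) = d j (d i f)
  dX : ∀ i j, d j (X i) = if i = j then 1 else 0
  Eζ : ∀ i, ∑ j, X j * d j (ζ i) = ζ i
  Zζ : ∀ i, ∑ j, ζ j * d j (ζ i) = -2 * ν i
  det : IsUnit (Matrix.of ![X, ζ, ν]).det
  M1 : ∀ j, ∑ i, ζ i * d i (M 0 j) = M 1 j
  X0 : dot (M 0) X = 0
  XM : ∀ k < 6, dot (M (k + 1)) X + (k + 1 : ℕ) * dot (M k) ζ = 0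
  dM : ∀ k < 6, ∀ j, d j (dot (M k) ζ) =
    M (k + 1) j + (k + 1 : ℕ) * dot (M k) (fun i => d j (ζ i))
  f1 : dot (M 0) ζ = 0
  f2 : dot (M 1) ζ = 2
  f3 : dot (M 2) ζ = 0

/-- the jet relations contracted with `ζ` and `ν` -/
structure JZ (Z N : Derivation ℝ A A) (X ζ ν : Fin 3 → A) (M : ℕ → Fin 3 → A) : Prop where
  X0 : dot (M 0) X = 0
  XM : ∀ k < 6, dot (M (k + 1)) X + (k + 1 : ℕ) * dot (M k) ζ = 0
  Zf : ∀ k < 6, Z (dot (M k) ζ) = dot (M (k + 1)) ζ - 2 * (k + 1 : ℕ) * dot (M k) ν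
  Nf : ∀ k < 6, N (dot (M k) ζ) = dot (M (k + 1)) ν +
    (k + 1 : ℕ) * dot (M k) (fun i => N (ζ i))
  f1 : dot (M 0) ζ = 0
  f2 : dot (M 1) ζ = 2
  f3 : dot (M 2) ζ = 0

end alg

/-- **Piece JETS0** (adapt `CD.S_JETS` of helper576: delete `f5, f7`, add the last line). -/
def S_JETS0 : Prop := S_LFT → S_TK → ∀ (U : Set (ℝ × ℝ)) (F : ℝ × ℝ → ℝ) (ζ : E3 → E3), Leaves U F →
  Fld0 U F ζ → ∀ d : Fin 3 → Derivation ℝ (Sm (cone U)) (Sm (cone U)), IsD (cone U) d →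
  ∃ (Xc Zc ν : Fin 3 → Sm (cone U)) (M : ℕ → Fin 3 → Sm (cone U)),
    (∀ i x, (Xc i).1 x = x.1 i) ∧ (∀ i x, (Zc i).1 x = ζ x.1 i) ∧
    (∀ j x, (M 0 j).1 x = fderiv ℝ (lft F) x.1 (Pi.single j 1)) ∧
    Jets0 d Xc Zc ν M ∧
    ∀ k ≤ 6, ∀ x, (dot (M k) Zc).1 x =
      iteratedDeriv (k + 1) (fun s : ℝ => lft F (x.1 + s • ζ x.1)) 0

/-- **Piece FR0** (adapt `Pool/Agent/Run7/h596/CD_FR.lean`: `r = c = 0` uses only `f1, f2, f3`;
`JZ` is `zZ`, `zN` there). -/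
def S_FR0 : Prop := ∀ (A : Type) [CommRing A] [Algebra ℝ A] (d : Fin 3 → Derivation ℝ A A)
  (X ζ ν : Fin 3 → A) (M : ℕ → Fin 3 → A), Jets0 d X ζ ν M →
  ∃ (Z N E : Derivation ℝ A A) (a b p q l m n : A), Frm Z N E X ζ ν a b p q l m n ∧
    JZ Z N X ζ ν M ∧ dot (M 0) ν = 1 ∧
    (∀ f, E f = ∑ j, X j * d j f) ∧ (∀ f, Z f = ∑ j, ζ j * d j f) ∧ (∀ f, N f = ∑ j, ν j * d j f)

/-- **Piece FR1** (adapt `Pool/Agent/Run7/h596/CD_FR.lean`, last part: `k = 1, ..., 6`). -/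
def S_FR1 : Prop := ∀ (A : Type) [CommRing A] [Algebra ℝ A] (Z N E : Derivation ℝ A A)
  (X ζ ν : Fin 3 → A) (M : ℕ → Fin 3 → A) (a b p q l m n : A), Frm Z N E X ζ ν a b p q l m n →
  JZ Z N X ζ ν M → dot (M 4) ζ = 0 → dot (M 6) ζ = 0 → Z q = 4 * p ∧ Z (N q) = 8 * p * q

/-- **Piece NIL** (helper71).  `THETA2` without reducedness: `t` is nilpotent. -/
def S_NIL : Prop := S_THETA1 → ∀ (A : Type) [CommRing A] [Algebra ℝ A]
  (Z N E : Derivation ℝ A A) (β b p q t : A), Sys Z N E β b p q t → ∃ n : ℕ, t ^ n = 0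

/-- the conclusion of NIL -/
def NilP : Prop := ∀ (A : Type) [CommRing A] [Algebra ℝ A]
  (Z N E : Derivation ℝ A A) (β b p q t : A), Sys Z N E β b p q t → ∃ n : ℕ, t ^ n = 0

/-- **Piece QUO** (algebra, about 120 lines).  Passage to the quotient by an ideal stable under
the derivations.

Proof.  `A ⧸ J` is an `ℝ`-algebra; `Z, N, E` induce derivations of `A ⧸ J` (`Submodule.mapQ` /
`Ideal.Quotient` and `Derivation.mk'`, or `Derivation.liftOfSurjective` if it exists).  All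
equations of `Frm` and `JZ` map to the quotient (the determinant of the image frame is the image of
the determinant: `RingHom.map_det`), and there `dot (M 4) ζ = dot (M 6) ζ = 0`.  FR1, STR, NIL give
`t` with `a = -2 t - 3 p`, `Z b = 6 (t - p)`, `t ^ n = 0`, so `2 a - Z b = -10 t` is nilpotent in
`A ⧸ J`. -/
def S_QUO : Prop := S_FR1 → S_STR → NilP → ∀ (A : Type) [CommRing A] [Algebra ℝ A] (J : Ideal A)
  (Z N E : Derivation ℝ A A) (X ζ ν : Fin 3 → A) (M : ℕ → Fin 3 → A) (a b p q l m n : A),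
  Frm Z N E X ζ ν a b p q l m n → JZ Z N X ζ ν M →
  (∀ f ∈ J, Z f ∈ J ∧ N f ∈ J ∧ E f ∈ J) → dot (M 4) ζ ∈ J → dot (M 6) ζ ∈ J →
  ∃ k : ℕ, (2 * a - Z b) ^ k ∈ J

/-- **Piece BF** (algebra; adapt `Pool/Agent/Run7/h71/CD/TRANS.lean`).  With the dual frame
`x, y, z`: `B = x zᵀ + z xᵀ + 2 y yᵀ - b z zᵀ`, `Z (B i j) = (2 a - Z b) z_i z_j`. -/
def S_BF : Prop := ∀ (A : Type) [CommRing A] [Algebra ℝ A] (Z N E : Derivation ℝ A A)
  (X ζ ν : Fin 3 → A) (a b p q l m n : A), Frm Z N E X ζ ν a b p q l m n →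
  ∃ (B : Matrix (Fin 3) (Fin 3) A) (z : Fin 3 → A), B.IsSymm ∧ IsUnit B.det ∧
    (∀ i j, Z (B i j) = (2 * a - Z b) * (z i * z j)) ∧ (∀ i j, E (B i j) = -2 * B i j) ∧
    ∑ i, ∑ j, B i j * X i * X j = 0

/-- **Piece CRV** (about 40 lines).  Integral curves: `V` smooth on the open set `O`, `X₀ ∈ O`.
Proof: `exists_forall_hasDerivAt_Ioo_eq_of_contDiffAt` (Picard-Lindelöf) and continuity. -/
def S_CRV : Prop := ∀ (O : Set E3) (V : E3 → E3), IsOpen O → ContDiffOn ℝ ∞ V O → ∀ X₀ ∈ O,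
  ∃ γ : ℝ → E3, γ 0 = X₀ ∧ ∀ᶠ τ in 𝓝 (0 : ℝ), γ τ ∈ O ∧ HasDerivAt γ (V (γ τ)) τ

/-- **Piece TAN** (about 60 lines, from CRV).  A function vanishing on the level `c` of `f` has
zero derivative along a field tangent to the levels.
Proof.  `X` on the level, `γ` the integral curve of `V` through `X`: `f ∘ γ` is constant near
`0` (derivative `fderiv f (γ τ) (V (γ τ)) = 0`), so `g ∘ γ = 0` near `0`. -/
def S_TAN : Prop := S_CRV → ∀ (O : Set E3) (V : E3 → E3) (f g : E3 → ℝ) (c : ℝ), IsOpen O →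
  ContDiffOn ℝ ∞ V O → ContDiffOn ℝ ∞ f O → ContDiffOn ℝ ∞ g O →
  (∀ X ∈ O, fderiv ℝ f X (V X) = 0) → (∀ X ∈ O, f X = c → g X = 0) →
  ∀ X ∈ O, f X = c → fderiv ℝ g X (V X) = 0

/-- **Piece RLL** (about 100 lines, from CRV).  Rolle: `g 0, g 1, ...` is the sequence of
iterated derivatives along the field `V`, `fderiv f (V) = 1`, and `g 0` vanishes on the levels
`c ∈ T` of `f`, where `T` accumulates at `c₀`: then all `g k` vanish on the level `c₀`.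

Proof.  `X` on the level `c₀`, `γ` the integral curve of `V` through `X`: `f (γ τ) = c₀ + τ` near
`0`, and `u k τ = g k (γ τ)` satisfies `u k' = u (k+1)` near `0`.  `u 0` vanishes at `τ = c - c₀`,
`c ∈ T`: so there are zeros `≠ 0` arbitrarily near `0`, infinitely many of one sign, say.  By
Rolle (`exists_hasDerivAt_eq_zero`) and induction every `u k` has zeros `≠ 0` arbitrarily near `0` of that
sign; by continuity `u k 0 = 0`. -/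
def S_RLL : Prop := S_CRV → ∀ (O : Set E3) (V : E3 → E3) (f : E3 → ℝ) (g : ℕ → E3 → ℝ) (T : Set ℝ)
  (c₀ : ℝ), IsOpen O → ContDiffOn ℝ ∞ V O → ContDiffOn ℝ ∞ f O → (∀ k, ContDiffOn ℝ ∞ (g k) O) →
  (∀ X ∈ O, fderiv ℝ f X (V X) = 1) → (∀ k, ∀ X ∈ O, g (k + 1) X = fderiv ℝ (g k) X (V X)) →
  (∃ᶠ c in 𝓝[≠] c₀, c ∈ T) → (∀ X ∈ O, f X ∈ T → g 0 X = 0) →
  ∀ k, ∀ X ∈ O, f X = c₀ → g k X = 0

/-- **Piece IDL** (algebra, about 100 lines).  The stable ideal generated by `G`.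

Proof.  `J` = the ideal (span) generated by all `N^k g`, `g ∈ G`, `k : ℕ`.  Stable under `N`:
`N (a x) = a N x + x N a`.  Stable under `E`: `E (N^k g) = N^k (E g)`, `E g ∈ G`.  Stable under
`Z`: induction on `k`: `Z (N^{k+1} g) = N (Z (N^k g)) - (b + q) Z (N^k g) - (a + p) E (N^k g)` by `ZN`,
and `Z (N^k g) ∈ J` for all `g ∈ G`, `J` is stable under `N`.  A ring homomorphism which
kills all `N^k g` kills `J`. -/
def S_IDL : Prop := ∀ (A : Type) [CommRing A] [Algebra ℝ A] (Z N E : Derivation ℝ A A)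
  (X ζ ν : Fin 3 → A) (a b p q l m n : A), Frm Z N E X ζ ν a b p q l m n → ∀ G : Set A,
  (∀ g ∈ G, Z g ∈ G ∧ E g ∈ G) →
  ∃ J : Ideal A, G ⊆ J ∧ (∀ f ∈ J, Z f ∈ J ∧ N f ∈ J ∧ E f ∈ J) ∧
    ∀ ev : A →+* ℝ, (∀ g ∈ G, ∀ k : ℕ, ev (N^[k] g) = 0) → ∀ f ∈ J, ev f = 0

/-- **Piece LVL1** (adapt `CD.S_LVL` of helper559): the same for one level. -/
def S_LVL1 : Prop := ∀ (U : Set (ℝ × ℝ)) (F R : ℝ × ℝ → ℝ) (c₀ : ℝ), IsOpen U →
  ContDiffOn ℝ ∞ F U → ContDiffOn ℝ ∞ R U → (∀ x ∈ U, fderiv ℝ F x ≠ 0) →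
  (∀ x ∈ U, F x = c₀ → ∀ v : ℝ × ℝ, fderiv ℝ F x v = 0 → fderiv ℝ R x v = 0) →
  ∀ L ⊆ U, IsPreconnected L → (∀ x ∈ L, F x = c₀) → ∀ x ∈ L, ∀ y ∈ L, R x = R y

/-- **Piece PRJ** (adapt `CD.S_SETUP`, pointwise part, about 60 lines).  At a point over `x` with
`ProjAt F x` all odd derivatives vanish. -/
def S_PRJ : Prop := S_LFT → S_EVN → ∀ (U : Set (ℝ × ℝ)) (F : ℝ × ℝ → ℝ) (ζ : E3 → E3), Leaves U F →
  Fld0 U F ζ → ∀ X ∈ cone U, ProjAt F (X 0 / X 2, X 1 / X 2) → ∀ k : ℕ, Odd k →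
    iteratedDeriv k (fun s : ℝ => lft F (X + s • ζ X)) 0 = 0

/-- **Statement for piece OUTA** -/
def OutA : Prop := ∀ (U : Set (ℝ × ℝ)) (F : ℝ × ℝ → ℝ) (ζ : E3 → E3) (T : Set ℝ) (c₀ : ℝ),
  Leaves U F → Fld0 U F ζ → (∃ᶠ c in 𝓝[≠] c₀, c ∈ T) →
  (∀ X ∈ cone U, lft F X ∈ T → ∀ k ∈ ({5, 7} : Set ℕ),
    iteratedDeriv k (fun s : ℝ => lft F (X + s • ζ X)) 0 = 0) →
  ∃ (B : E3 → Matrix (Fin 3) (Fin 3) ℝ) (h : E3 → ℝ),
    (∀ i j, ContDiffOn ℝ ∞ (fun X => B X i j) (cone U)) ∧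
    (∀ X ∈ cone U, (B X).IsSymm ∧ (B X).det ≠ 0 ∧ qf (B X) X = 0) ∧
    (∀ X ∈ cone U, ∀ i j, fderiv ℝ (fun X => B X i j) X X = -2 * B X i j) ∧
    (∀ X ∈ cone U, lft F X = c₀ → ∀ i j, fderiv ℝ (fun X => B X i j) X (ζ X) = 0) ∧
    ContDiffOn ℝ ∞ h (cone U) ∧
    (∀ X ∈ cone U, h X ≠ 0 ∧ fderiv ℝ h X (ζ X) = 0 ∧ fderiv ℝ h X X = 3 * h X) ∧
    (∀ X ∈ cone U, ∀ V : E3, fderiv ℝ (lft F) X V = 0 → ∃ α β : ℝ, V = α • X + β • ζ X)

/-- **Piece OUTA** (about 150 lines; compare `CD.S_OUT`).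
Proof.  `A = Sm (cone U)`, `d` from RING, `Xc, Zc, ν, M` from JETS0, `Z, N, E, a, b, ...` from
FR0.  `G = {g | g vanishes at all x with lft F x ∈ T}`: contains `dot (M 4) ζ`, `dot (M 6) ζ`; stable
under `Z` (TAN with the field `ζ`; `fderiv (lft F) X (ζ X) = dot (M 0) ζ = 0`) and `E` (TAN with the field
`X`; LFT).  `J` from IDL.  For a point `x` with `lft F x = c₀` the evaluation `ev` at `x` kills all
`N^k g`: RLL with the field `ν` (`dot (M 0) ν = 1`).  QUO: `(2 a - Z b)^k ∈ J`, so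
`(2 a - Z b) x = 0`.  `B` from BF: `Z (B i j) = (2 a - Z b) z_i z_j` vanishes at `x`.
`h` = determinant of `X, ζ, ν` as in `CD.S_OUT`; last claim as in `CD.S_OUT`. -/
def S_OUTA : Prop := S_LFT → S_RING →
  (∀ (U : Set (ℝ × ℝ)) (F : ℝ × ℝ → ℝ) (ζ : E3 → E3), Leaves U F →
    Fld0 U F ζ → ∀ d : Fin 3 → Derivation ℝ (Sm (cone U)) (Sm (cone U)), IsD (cone U) d →
    ∃ (Xc Zc ν : Fin 3 → Sm (cone U)) (M : ℕ → Fin 3 → Sm (cone U)),
      (∀ i x, (Xc i).1 x = x.1 i) ∧ (∀ i x, (Zc i).1 x = ζ x.1 i) ∧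
      (∀ j x, (M 0 j).1 x = fderiv ℝ (lft F) x.1 (Pi.single j 1)) ∧
      Jets0 d Xc Zc ν M ∧
      ∀ k ≤ 6, ∀ x, (dot (M k) Zc).1 x =
        iteratedDeriv (k + 1) (fun s : ℝ => lft F (x.1 + s • ζ x.1)) 0) →
  S_FR0 → S_FR1 → S_STR → NilP → S_QUO → S_BF → S_CRV → S_TAN → S_RLL → S_IDL → OutA

/-- the final theorem of the project -/
def GoalA : Prop := ∀ (U : Set (ℝ × ℝ)) (F : ℝ × ℝ → ℝ) (c₀ : ℝ), Leaves U F →
  (∃ᶠ c in 𝓝[≠] c₀, ∀ x ∈ U, F x = c → ProjAt F x) →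
  ∀ L ⊆ U, IsPreconnected L → (∀ x ∈ L, F x = c₀) →
    ∃ Q : Matrix (Fin 3) (Fin 3) ℝ, Q.IsSymm ∧ Q.det ≠ 0 ∧ ∀ x ∈ L, qf Q (hom x) = 0

/-- **Piece FINA** (about 100 lines).  Proof.  `ζ` from `S_ZET` (it gives `Fld0`),
`T = {c | ∀ x ∈ U, F x = c → ProjAt F x}`; PRJ gives the hypothesis of `OutA`.  If `L` is empty take any
`Q`.  Otherwise let `y₀ ∈ L`, `Y₀ = hom y₀`, `Q = B Y₀`.  For `i, j` the function
`R x = (B (hom x) i j) ^ 3 * (h (hom x)) ^ 2` (degree `0` on the cone) has `fderiv R x v = 0` for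
`F x = c₀`, `fderiv F x v = 0` (lift `v` to `(v.1, v.2, 0) = α X + β ζ`), so by LVL1 it is constant on `L`:
`(B (hom x) i j)^3 h(hom x)² = (Q i j)^3 h(Y₀)²`, hence `B (hom x) = λ Q` with `λ³ = h(Y₀)²/h(hom x)²`,
`λ ≠ 0`, and `qf Q (hom x) = 0` follows from `qf (B (hom x)) (hom x) = 0`. -/
def S_FINA : Prop := S_LFT → S_ZET →
  (∀ (U : Set (ℝ × ℝ)) (F : ℝ × ℝ → ℝ) (ζ : E3 → E3), Leaves U F →
    Fld0 U F ζ → ∀ X ∈ cone U, ProjAt F (X 0 / X 2, X 1 / X 2) → ∀ k : ℕ, Odd k →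
      iteratedDeriv k (fun s : ℝ => lft F (X + s • ζ X)) 0 = 0) → S_LVL1 → OutA → GoalA

end Pool.Agent.Run7.h71.CE
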